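import Pool.Agent.H656R2.FG.Words

/-!
# Free group factors, step 4: the words `g_j` and their splits
-/

namespace H656R2.FG

open FreeGroup

variable {ι κ : Type} [DecidableEq ι]

/-- `q_j(n) = prod_{m<n} w_j u_{c m}`. -/
def q (c : ℕ → κ) (j : ι) : ℕ → FreeGroup (ι ⊕ κ)
  | 0 => 1
  | n + 1 => q c j n * (of (Sum.inl j) * of (Sum.inr (c n)))

/-- `g_j` -/
def gw (c : ℕ → κ) (L : ℕ) (j : ι) : FreeGroup (ι ⊕ κ) := q c j L * of (Sum.inl j)

/-- `a_s(l)` -/
def ga (c : ℕ → κ) (L : ℕ) (s : ι × Bool) (l : ℕ) : FreeGroup (ι ⊕ κ) :=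
  if s.2 then q c s.1 (l + 1) else (gw c L s.1)⁻¹ * q c s.1 (l + 1)

/-- `b_s(l)` -/
def gb (c : ℕ → κ) (L : ℕ) (s : ι × Bool) (l : ℕ) : FreeGroup (ι ⊕ κ) :=
  if s.2 then (q c s.1 (l + 1))⁻¹ * gw c L s.1 else (q c s.1 (l + 1))⁻¹

/-- `g_s` -/
def gg (c : ℕ → κ) (L : ℕ) (s : ι × Bool) : FreeGroup (ι ⊕ κ) :=
  if s.2 then gw c L s.1 else (gw c L s.1)⁻¹

/-- change the sign -/
def ng (s : ι × Bool) : ι × Bool := (s.1, !s.2)

/-- exponent of `a_s(l)` -/
def ea (L : ℕ) (b : Bool) (l : ℕ) : ℤ := if b then (l : ℤ) + 1 else (l : ℤ) - L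
/-- exponent of `b_s(l)` -/
def eb (L : ℕ) (b : Bool) (l : ℕ) : ℤ := if b then (L : ℤ) - l else -((l : ℤ) + 1)
/-- exponent of `g_s` -/
def eg (L : ℕ) (b : Bool) : ℤ := if b then (L : ℤ) + 1 else -((L : ℤ) + 1)

variable (c : ℕ → κ) (L : ℕ)

omit [DecidableEq ι] in
lemma ga_mul_gb (s : ι × Bool) (l : ℕ) : ga c L s l * gb c L s l = gg c L s := by
  unfold ga gb gg
  split_ifs <;> group

omit [DecidableEq ι] in
lemma ng_ng (s : ι × Bool) : ng (ng s) = s := by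
  simp [ng]

omit [DecidableEq ι] in
lemma ng_fst (s : ι × Bool) : (ng s).1 = s.1 := rfl

omit [DecidableEq ι] in
lemma ng_snd (s : ι × Bool) : (ng s).2 = !s.2 := rfl

omit [DecidableEq ι] in
lemma ng_inj {s s' : ι × Bool} (h : ng s = ng s') : s = s' := by
  rw [← ng_ng s, h, ng_ng]

omit [DecidableEq ι] in
lemma ga_ng (s : ι × Bool) (l : ℕ) : ga c L (ng s) l = (gb c L s l)⁻¹ := by
  obtain ⟨j, b⟩ := s
  cases b <;> simp [ga, gb, ng]

omit [DecidableEq ι] in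
lemma gb_ng (s : ι × Bool) (l : ℕ) : gb c L (ng s) l = (ga c L s l)⁻¹ := by
  obtain ⟨j, b⟩ := s
  cases b <;> simp [ga, gb, ng]

omit [DecidableEq ι] in
lemma gg_ng (s : ι × Bool) : gg c L (ng s) = (gg c L s)⁻¹ := by
  obtain ⟨j, b⟩ := s
  cases b <;> simp [gg, ng]

lemma inv_q {i j : ι} (h : i ≠ j) (n : ℕ) : Inv i (q c j n) := by
  induction n with
  | zero => exact inv_one i
  | succ n ih => exact ih.mul ((inv_w (Ne.symm h)).mul (inv_u _ _))

lemma inv_gw {i j : ι} (h : i ≠ j) : Inv i (gw c L j) := (inv_q c h L).mul (inv_w (Ne.symm h))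

lemma inv_ga {i : ι} {s : ι × Bool} (h : i ≠ s.1) (l : ℕ) : Inv i (ga c L s l) := by
  unfold ga
  split_ifs
  · exact inv_q c h _
  · exact (inv_gw c L h).inv.mul (inv_q c h _)

lemma inv_gb {i : ι} {s : ι × Bool} (h : i ≠ s.1) (l : ℕ) : Inv i (gb c L s l) := by
  unfold gb
  split_ifs
  · exact (inv_q c h _).inv.mul (inv_gw c L h)
  · exact (inv_q c h _).inv

lemma inv_gg {i : ι} {s : ι × Bool} (h : i ≠ s.1) : Inv i (gg c L s) := by
  rw [← ga_mul_gb c L s 0]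
  exact (inv_ga c L h 0).mul (inv_gb c L h 0)

lemma ex_q (j : ι) (n : ℕ) : ex j (q c j n) = n := by
  induction n with
  | zero => exact ex_one j
  | succ n ih =>
    rw [q, ex_mul, ex_mul, ih, ex_w, ex_u]
    push_cast
    ring

lemma ex_gw (j : ι) : ex j (gw c L j) = L + 1 := by
  rw [gw, ex_mul, ex_q, ex_w]

lemma ex_ga (s : ι × Bool) (l : ℕ) : ex s.1 (ga c L s l) = ea L s.2 l := by
  obtain ⟨j, b⟩ := s
  cases b
  · simp only [ga, ea, Bool.false_eq_true, if_false, ex_mul, ex_inv, ex_gw, ex_q]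
    push_cast
    ring
  · simp only [ga, ea, if_true, ex_q]
    push_cast
    ring

lemma ex_gb (s : ι × Bool) (l : ℕ) : ex s.1 (gb c L s l) = eb L s.2 l := by
  obtain ⟨j, b⟩ := s
  cases b
  · simp only [gb, eb, Bool.false_eq_true, if_false, ex_mul, ex_inv, ex_gw, ex_q]
    push_cast
    ring
  · simp only [gb, eb, if_true, ex_mul, ex_inv, ex_gw, ex_q]
    push_cast
    ring

lemma ex_gg (s : ι × Bool) : ex s.1 (gg c L s) = eg L s.2 := by
  obtain ⟨j, b⟩ := s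
  cases b
  · simp only [gg, eg, Bool.false_eq_true, if_false, ex_inv, ex_gw]
  · simp only [gg, eg, if_true, ex_gw]

lemma ea_ne {b : Bool} {l : ℕ} (h : l < L) : ea L b l ≠ 0 := by
  unfold ea
  split_ifs <;> omega

lemma eb_ne {b : Bool} {l : ℕ} (h : l < L) : eb L b l ≠ 0 := by
  unfold eb
  split_ifs <;> omega

lemma eg_ne {b : Bool} : eg L b ≠ 0 := by
  unfold eg
  split_ifs <;> omega

lemma ea_inj {b b' : Bool} {l l' : ℕ} (h : l < L) (h' : l' < L) (e : ea L b l = ea L b' l') :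
    b = b' ∧ l = l' := by
  unfold ea at e
  cases b <;> cases b' <;> simp at e ⊢ <;> omega

lemma eb_inj {b b' : Bool} {l l' : ℕ} (h : l < L) (h' : l' < L) (e : eb L b l = eb L b' l') :
    b = b' ∧ l = l' := by
  unfold eb at e
  cases b <;> cases b' <;> simp at e ⊢ <;> omega

lemma eg_inj {b b' : Bool} (e : eg L b = eg L b') : b = b' := by
  unfold eg at e
  cases b <;> cases b' <;> simp at e ⊢ <;> omega

variable {c L}

/-- **Lemma U**, right version for `a`. -/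
lemma lemU {s s' : ι × Bool} {l l' : ℕ} (hl : l < L) (hl' : l' < L)
    {X X' : FreeGroup (ι ⊕ κ)} (hX : Inv s.1 X) (hX' : Inv s'.1 X')
    (h : X * ga c L s l = X' * ga c L s' l') : s = s' ∧ l = l' ∧ X = X' := by
  obtain ⟨h1, h2⟩ := lemP (fun i hi => inv_ga c L hi l) (fun i hi => inv_ga c L hi l')
    (by rw [ex_ga]; exact ea_ne L hl) (by rw [ex_ga]; exact ea_ne L hl') hX hX' h
  rw [ex_ga, ex_ga] at h2
  obtain ⟨h3, h4⟩ := ea_inj L hl hl' h2
  have hs : s = s' := Prod.ext h1 h3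
  subst hs
  subst h4
  exact ⟨rfl, rfl, mul_right_cancel h⟩

/-- **Lemma U**, left version for `a`. -/
lemma lemU' {s s' : ι × Bool} {l l' : ℕ} (hl : l < L) (hl' : l' < L)
    {X X' : FreeGroup (ι ⊕ κ)} (hX : Inv s.1 X) (hX' : Inv s'.1 X')
    (h : ga c L s l * X = ga c L s' l' * X') : s = s' ∧ l = l' ∧ X = X' := by
  obtain ⟨h1, h2⟩ := lemP' (fun i hi => inv_ga c L hi l) (fun i hi => inv_ga c L hi l')
    (by rw [ex_ga]; exact ea_ne L hl) (by rw [ex_ga]; exact ea_ne L hl') hX hX' h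
  rw [ex_ga, ex_ga] at h2
  obtain ⟨h3, h4⟩ := ea_inj L hl hl' h2
  have hs : s = s' := Prod.ext h1 h3
  subst hs
  subst h4
  exact ⟨rfl, rfl, mul_left_cancel h⟩

/-- **Lemma U**, left version for `b`. -/
lemma lemUb {s s' : ι × Bool} {l l' : ℕ} (hl : l < L) (hl' : l' < L)
    {X X' : FreeGroup (ι ⊕ κ)} (hX : Inv s.1 X) (hX' : Inv s'.1 X')
    (h : gb c L s l * X = gb c L s' l' * X') : s = s' ∧ l = l' ∧ X = X' := by
  have h2 : X⁻¹ * ga c L (ng s) l = X'⁻¹ * ga c L (ng s') l' := by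
    rw [ga_ng, ga_ng, ← mul_inv_rev, ← mul_inv_rev, h]
  obtain ⟨h3, h4, h5⟩ := lemU (s := ng s) (s' := ng s') hl hl' hX.inv hX'.inv h2
  exact ⟨ng_inj h3, h4, inv_inj.1 h5⟩

/-- **Lemma U**, right version for `b`. -/
lemma lemUb' {s s' : ι × Bool} {l l' : ℕ} (hl : l < L) (hl' : l' < L)
    {X X' : FreeGroup (ι ⊕ κ)} (hX : Inv s.1 X) (hX' : Inv s'.1 X')
    (h : X * gb c L s l = X' * gb c L s' l') : s = s' ∧ l = l' ∧ X = X' := by
  have h2 : ga c L (ng s) l * X⁻¹ = ga c L (ng s') l' * X'⁻¹ := by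
    rw [ga_ng, ga_ng, ← mul_inv_rev, ← mul_inv_rev, h]
  obtain ⟨h3, h4, h5⟩ := lemU' (s := ng s) (s' := ng s') hl hl' hX.inv hX'.inv h2
  exact ⟨ng_inj h3, h4, inv_inj.1 h5⟩

/-- `A'` of the left family. -/
def LA (c : ℕ → κ) (L : ℕ) (A : FreeGroup (ι ⊕ κ)) (s : ι × Bool) (l r : ℕ) :
    FreeGroup (ι ⊕ κ) := A * (ga c L s l)⁻¹ * ga c L s r

/-- `B'` of the left family. -/
def LB (c : ℕ → κ) (L : ℕ) (B : FreeGroup (ι ⊕ κ)) (s s2 : ι × Bool) (l r : ℕ) :
    FreeGroup (ι ⊕ κ) := (ga c L s r)⁻¹ * gg c L s2 * (gb c L s l)⁻¹ * B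

lemma ea_sub (b : Bool) (l r : ℕ) : - ea L b l + ea L b r = (r : ℤ) - l := by
  unfold ea
  split_ifs <;> ring

lemma ex_LA_mid {s : ι × Bool} {l r : ℕ} :
    ex s.1 ((ga c L s l)⁻¹ * ga c L s r) = (r : ℤ) - l := by
  rw [ex_mul, ex_inv, ex_ga, ex_ga, ea_sub]

lemma inv_LA_mid {i : ι} {s : ι × Bool} (h : i ≠ s.1) (l r : ℕ) :
    Inv i ((ga c L s l)⁻¹ * ga c L s r) :=
  (inv_ga c L h l).inv.mul (inv_ga c L h r)

lemma Hs_pure_left {j j' : ι} {g : FreeGroup (ι ⊕ κ)} (hj : j ≠ j') (hg : Inv j' g) :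
    Hs κ j j' g = ⟨ex j g, 0, 0⟩ := by
  ext
  · rw [Hs_x]
  · rw [Hs_y hj, hg.ex]
  · rw [Hs_inv_right hj hg]

lemma Hs_pure_right {j j' : ι} {g : FreeGroup (ι ⊕ κ)} (hj : j ≠ j') (hg : Inv j g) :
    Hs κ j j' g = ⟨0, ex j' g, 0⟩ := by
  ext
  · rw [Hs_x, hg.ex]
  · rw [Hs_y hj]
  · rw [Hs_inv_left hg]

/-- the Heisenberg image of `B'` -/
lemma Hs_LB {B : FreeGroup (ι ⊕ κ)} {s s2 : ι × Bool} {l r : ℕ} (hj : s.1 ≠ s2.1)
    (h1 : Inv s.1 B) (h2 : Inv s2.1 B) :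
    Hs κ s.1 s2.1 (LB c L B s s2 l r) =
      ⟨- ea L s.2 r - eb L s.2 l, eg L s2.2, - ea L s.2 r * eg L s2.2⟩ := by
  unfold LB
  have e1 := Hs_pure_left (κ := κ) hj ((inv_ga c L (i := s2.1) (s := s) hj.symm r).inv)
  have e2 := Hs_pure_right (κ := κ) hj (inv_gg c L (i := s.1) (s := s2) hj)
  have e3 := Hs_pure_left (κ := κ) hj ((inv_gb c L (i := s2.1) (s := s) hj.symm l).inv)
  have e4 := Hs_pure_left (κ := κ) hj h2
  rw [_root_.map_mul, _root_.map_mul, _root_.map_mul, e1, e2, e3, e4, ex_inv, ex_inv, ex_ga,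
    ex_gb, ex_gg, h1.ex]
  ext
  · simp; ring
  · simp
  · simp

/-- **The left family has no invisible outcome.** -/
lemma left_no_inv {A B : FreeGroup (ι ⊕ κ)} {s s2 s3 : ι × Bool} {l r l3 : ℕ}
    (hl : l < L) (hr : r < L) (hl3 : l3 < L) (hlr : r ≠ l) (hj : s.1 ≠ s2.1)
    (hA1 : Inv s.1 A) (hA2 : Inv s2.1 A) (hB1 : Inv s.1 B) (hB2 : Inv s2.1 B)
    (hX : Inv s3.1 (ga c L s3 l3 * (LA c L A s l r)⁻¹))
    (hY : Inv s3.1 ((LB c L B s s2 l r)⁻¹ * gb c L s3 l3)) : False := by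
  -- j3 = j1
  have h1 : (ga c L s3 l3 * (LA c L A s l r)⁻¹)⁻¹ * ga c L s3 l3 =
      A * ((ga c L s l)⁻¹ * ga c L s r) := by
    unfold LA
    group
  obtain ⟨e1, -⟩ := lemP (fun i hi => inv_ga c L hi l3) (fun i hi => inv_LA_mid hi l r)
    (by rw [ex_ga]; exact ea_ne L hl3)
    (by rw [ex_LA_mid]; omega) hX.inv hA1 h1
  -- on B'
  have h2 : LB c L B s s2 l r = gb c L s3 l3 * ((LB c L B s s2 l r)⁻¹ * gb c L s3 l3)⁻¹ := by
    group
  have h3 := Hs_LB (c := c) (L := L) (l := l) (r := r) hj hB1 hB2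
  rw [e1] at hY
  rw [h2, _root_.map_mul, Hs_pure_right hj hY.inv,
    Hs_pure_left (κ := κ) hj (inv_gb c L (i := s2.1) (s := s3) (by rw [e1]; exact hj.symm) l3)] at h3
  have hx := congrArg H3.x h3
  have hy := congrArg H3.y h3
  have hz := congrArg H3.z h3
  simp only [H3.mul_x, H3.mul_y, H3.mul_z] at hx hy hz
  have hb := eb_ne L (b := s.2) hl
  have hg := eg_ne L (b := s2.2)
  have : eb L s.2 l * eg L s2.2 = 0 := by
    have e2 : ex s2.1 ((LB c L B s s2 l r)⁻¹ * gb c L s3 l3)⁻¹ = eg L s2.2 := by linarith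
    have e3 : ex s.1 (gb c L s3 l3) = - ea L s.2 r - eb L s.2 l := by linarith
    rw [e2, e3] at hz
    linarith
  rcases mul_eq_zero.1 this with h | h
  · exact hb h
  · exact hg h

/-- **Injectivity of the left family.** -/
lemma left_inj {A B A' B' : FreeGroup (ι ⊕ κ)} {s s2 s' s2' : ι × Bool} {l r l' r' : ℕ}
    (hl : l < L) (hr : r < L) (hlr : r ≠ l) (hj : s.1 ≠ s2.1)
    (hl' : l' < L) (hr' : r' < L) (hlr' : r' ≠ l') (hj' : s'.1 ≠ s2'.1)
    (hA1 : Inv s.1 A) (hB1 : Inv s.1 B) (hB2 : Inv s2.1 B)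
    (hA1' : Inv s'.1 A') (hB1' : Inv s'.1 B') (hB2' : Inv s2'.1 B')
    (h1 : LA c L A s l r = LA c L A' s' l' r')
    (h2 : LB c L B s s2 l r = LB c L B' s' s2' l' r') :
    s = s' ∧ s2 = s2' ∧ l = l' ∧ r = r' ∧ A = A' ∧ B = B' := by
  have e0 : A * ((ga c L s l)⁻¹ * ga c L s r) = A' * ((ga c L s' l')⁻¹ * ga c L s' r') := by
    rw [← mul_assoc, ← mul_assoc]; exact h1
  obtain ⟨e1, -⟩ := lemP (fun i hi => inv_LA_mid hi l r) (fun i hi => inv_LA_mid hi l' r')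
    (by rw [ex_LA_mid]; omega) (by rw [ex_LA_mid]; omega) hA1 hA1' e0
  have hb := eb_ne L (b := s.2) hl
  have hg := eg_ne L (b := s2.2)
  have e2 : s2.1 = s2'.1 := by
    by_contra hne
    have h3 := Hs_LB (c := c) (L := L) (l := l) (r := r) hj hB1 hB2
    rw [h2] at h3
    -- compute the other side
    have hj2 : s2.1 ≠ s'.1 := by rw [← e1]; exact hj.symm
    have f1 := Hs_pure_left (κ := κ) hj ((inv_ga c L (i := s2.1) (s := s') hj2 r').inv)
    have f2 : Hs κ s.1 s2.1 (gg c L s2') = 1 := by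
      have hi1 : Inv s.1 (gg c L s2') := inv_gg c L (by rw [e1]; exact hj')
      have hi2 : Inv s2.1 (gg c L s2') := inv_gg c L hne
      rw [Hs_pure_left hj hi2, hi1.ex]
      rfl
    have f3 := Hs_pure_left (κ := κ) hj ((inv_gb c L (i := s2.1) (s := s') hj2 l').inv)
    have hB1'' : Inv s.1 B' := by rw [e1]; exact hB1'
    have f4 := Hs_pure_right (κ := κ) hj hB1''
    unfold LB at h3
    rw [_root_.map_mul, _root_.map_mul, _root_.map_mul, f1, f2, f3, f4] at h3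
    have hx := congrArg H3.x h3
    have hy := congrArg H3.y h3
    have hz := congrArg H3.z h3
    simp only [H3.mul_x, H3.mul_y, H3.mul_z, H3.one_x, H3.one_y, H3.one_z] at hx hy hz
    have : eb L s.2 l * eg L s2.2 = 0 := by
      have k1 : ex s2.1 B' = eg L s2.2 := by linarith
      rw [k1] at hz
      have k2 : ex s.1 (ga c L s' r')⁻¹ + ex s.1 (gb c L s' l')⁻¹ =
        - ea L s.2 r - eb L s.2 l := by linarith
      have k3 : (ex s.1 (ga c L s' r')⁻¹ + ex s.1 (gb c L s' l')⁻¹) * eg L s2.2 =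
        - ea L s.2 r * eg L s2.2 := by linarith
      rw [k2] at k3
      linarith
    rcases mul_eq_zero.1 this with h | h
    · exact hb h
    · exact hg h
  have h3 := Hs_LB (c := c) (L := L) (l := l) (r := r) hj hB1 hB2
  have h3' := Hs_LB (c := c) (L := L) (l := l') (r := r') hj' hB1' hB2'
  rw [h2, e1, e2, h3'] at h3
  have hx := congrArg H3.x h3
  have hy := congrArg H3.y h3
  have hz := congrArg H3.z h3
  simp only at hx hy hz
  have e3 : s2'.2 = s2.2 := eg_inj L hy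
  rw [e3] at hz
  have e4 : ea L s'.2 r' = ea L s.2 r := by
    have := mul_right_cancel₀ hg hz
    linarith
  obtain ⟨e5, e6⟩ := ea_inj L hr' hr e4
  have e7 : eb L s'.2 l' = eb L s.2 l := by linarith
  obtain ⟨-, e8⟩ := eb_inj L hl' hl e7
  have e9 : s = s' := Prod.ext e1 e5.symm
  have e10 : s2 = s2' := Prod.ext e2 e3.symm
  subst e9; subst e10; subst e6; subst e8
  refine ⟨rfl, rfl, rfl, rfl, mul_right_cancel e0, ?_⟩
  unfold LB at h2
  exact mul_left_cancel h2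

/-- **Left and right families are disjoint.** -/
lemma left_right_disj {B s0 X : FreeGroup (ι ⊕ κ)} {s s2 : ι × Bool} {l r : ℕ} {j : ι}
    (hl : l < L) (hr : r < L) (hj : s.1 ≠ s2.1) (hB1 : Inv s.1 B) (hB2 : Inv s2.1 B)
    (hs0 : ∀ i, i ≠ j → Inv i s0) (he : ex j s0 ≠ 0) (hX : Inv j X)
    (h : s0 * X = LB c L B s s2 l r) : False := by
  have hb := eb_ne L (b := s.2) hl
  have ha := ea_ne L (b := s.2) hr
  have hg := eg_ne L (b := s2.2)
  have h3 := Hs_LB (c := c) (L := L) (l := l) (r := r) hj hB1 hB2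
  by_cases h1 : j = s.1
  · subst h1
    rw [← h, _root_.map_mul, Hs_pure_right hj hX, Hs_pure_left hj (hs0 s2.1 hj.symm)] at h3
    have hx := congrArg H3.x h3
    have hy := congrArg H3.y h3
    have hz := congrArg H3.z h3
    simp only [H3.mul_x, H3.mul_y, H3.mul_z] at hx hy hz
    have e1 : ex s2.1 X = eg L s2.2 := by linarith
    have e2 : ex s.1 s0 = - ea L s.2 r - eb L s.2 l := by linarith
    rw [e1, e2] at hz
    have : eb L s.2 l * eg L s2.2 = 0 := by linarith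
    rcases mul_eq_zero.1 this with h | h
    · exact hb h
    · exact hg h
  · by_cases h2 : j = s2.1
    · subst h2
      rw [← h, _root_.map_mul, Hs_pure_left hj hX, Hs_pure_right hj (hs0 s.1 hj)] at h3
      have hz := congrArg H3.z h3
      simp only [H3.mul_z] at hz
      have : ea L s.2 r * eg L s2.2 = 0 := by linarith
      rcases mul_eq_zero.1 this with h | h
      · exact ha h
      · exact hg h
    · have hj' : s.1 ≠ j := fun e => h1 e.symm
      have f1 := Hs_pure_left (κ := κ) hj' ((inv_ga c L (i := j) (s := s) h1 r).inv)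
      have f2 : Hs κ s.1 j (gg c L s2) = 1 := by
        have hi1 : Inv s.1 (gg c L s2) := inv_gg c L hj
        have hi2 : Inv j (gg c L s2) := inv_gg c L h2
        rw [Hs_pure_left hj' hi2, hi1.ex]
        rfl
      have f3 := Hs_pure_left (κ := κ) hj' ((inv_gb c L (i := j) (s := s) h1 l).inv)
      have f4 := Hs_pure_right (κ := κ) hj' hB1
      have h4 := congrArg (Hs κ s.1 j) h
      unfold LB at h4
      rw [_root_.map_mul, _root_.map_mul, _root_.map_mul, _root_.map_mul, f1, f2, f3, f4,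
        Hs_pure_left hj' hX, Hs_pure_right hj' (hs0 s.1 (fun e => h1 e.symm)), ex_inv, ex_inv,
        ex_ga, ex_gb] at h4
      have hx := congrArg H3.x h4
      have hy := congrArg H3.y h4
      have hz := congrArg H3.z h4
      simp only [H3.mul_x, H3.mul_y, H3.mul_z, H3.one_x, H3.one_y, H3.one_z] at hx hy hz
      have e1 : ex j B = ex j s0 := by linarith
      rw [e1] at hz
      have : (ea L s.2 r + eb L s.2 l) * ex j s0 = 0 := by linarith
      rcases mul_eq_zero.1 this with h | h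
      · revert h
        unfold ea eb
        split_ifs <;> omega
      · exact he h

end H656R2.FG
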