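import Pool.Agent.H296R3.FF.A3
import Pool.Agent.H656R2.FG.Words2

/-!
# Free group factors, step 4: the group lemmas K1, K2, K3 of helper296
-/

set_option autoImplicit false

namespace Pool.Agent.H296R3.FF

open H656R2.FG (Inv ga gb gg ng ea eb eg ex LA LB)

lemma q_eq (j n : ℕ) : pr j n = H656R2.FG.q col j n := by
  induction n with
  | zero => rfl
  | succ n ih => rw [pr, H656R2.FG.q, ih]; rfl

lemma a_eq (L : ℕ) (s : ℕ × Bool) (l : ℕ) : a L s l = ga col L s l := by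
  obtain ⟨j, e⟩ := s
  cases e
  · simp only [a, ga, q_eq, H656R2.FG.gw, Bool.false_eq_true, if_false]; rfl
  · simp only [a, ga, q_eq, if_true]

lemma g_eq (L : ℕ) (s : ℕ × Bool) : g L s = gg col L s := by
  obtain ⟨j, e⟩ := s
  cases e
  · simp only [g, gg, q_eq, H656R2.FG.gw, Bool.false_eq_true, if_false]; rfl
  · simp only [g, gg, q_eq, H656R2.FG.gw, if_true]; rfl

lemma b_eq (L : ℕ) (s : ℕ × Bool) (l : ℕ) : b L s l = gb col L s l := by
  rw [b, a_eq, g_eq, ← H656R2.FG.ga_mul_gb col L s l]; group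

lemma Inv_of_Sub {I : Finset ℕ} {j : ℕ} (hj : j ∉ I) {x : Gm} (hx : x ∈ Sub I) : Inv j x := by
  induction hx using Subgroup.closure_induction with
  | mem x hx =>
    rcases hx with ⟨k, hk, rfl⟩ | ⟨i, rfl⟩
    · exact H656R2.FG.inv_w (fun h => hj (h ▸ hk))
    · exact H656R2.FG.inv_u j i
  | one => exact H656R2.FG.inv_one j
  | mul x y _ _ hx hy => exact hx.mul hy
  | inv x _ hx => exact hx.inv

/-- the first kind in my notation -/
lemma nA_inl (L : ℕ) (A : Gm) (p : (ℕ × Bool) × ℕ) (s : ℕ × Bool) (m : ℕ) :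
    nA L A p s (Sum.inl m) = (px L A p)⁻¹ * ga col L s m := by
  rw [nA, a_eq]

lemma nB_inl (L : ℕ) (A B : Gm) (p : (ℕ × Bool) × ℕ) (s : ℕ × Bool) (m : ℕ) :
    nB L A B p s (Sum.inl m) = gb col L s m * (py L B p)⁻¹ := by
  rw [nB, nA_inl, nv, g_eq, ← H656R2.FG.ga_mul_gb col L s m]; group

lemma nA_left (L : ℕ) (A : Gm) (p : (ℕ × Bool) × ℕ) (s : ℕ × Bool) (r : ℕ)
    (h : inA p.1.2 p.2 r) :
    nA L A p s (Sum.inr r) = LA col L A p.1 p.2 r := by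
  rw [nA, if_pos h, px, LA, a_eq, a_eq]; group

lemma nB_left (L : ℕ) (A B : Gm) (p : (ℕ × Bool) × ℕ) (s : ℕ × Bool) (r : ℕ)
    (h : inA p.1.2 p.2 r) :
    nB L A B p s (Sum.inr r) = LB col L B p.1 s p.2 r := by
  rw [nB, nA_left L A p s r h, nv, px, py, LA, LB, a_eq, b_eq, g_eq]; group

lemma nA_right (L : ℕ) (A : Gm) (p : (ℕ × Bool) × ℕ) (s : ℕ × Bool) (r : ℕ)
    (h : ¬ inA p.1.2 p.2 r) :
    nA L A p s (Sum.inr r) = (LB col L A⁻¹ (ng p.1) (ng s) p.2 r)⁻¹ := by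
  rw [nA, if_neg h, px, LB, a_eq, b_eq, g_eq, H656R2.FG.ga_ng, H656R2.FG.gb_ng,
    H656R2.FG.gg_ng]; group

lemma nB_right (L : ℕ) (A B : Gm) (p : (ℕ × Bool) × ℕ) (s : ℕ × Bool) (r : ℕ)
    (h : ¬ inA p.1.2 p.2 r) :
    nB L A B p s (Sum.inr r) = (LA col L B⁻¹ (ng p.1) p.2 r)⁻¹ := by
  rw [nB, nA_right L A p s r h, nv, px, py, LA, LB, a_eq, b_eq, g_eq, H656R2.FG.ga_ng,
    H656R2.FG.gb_ng, H656R2.FG.gg_ng, H656R2.FG.ga_ng]; group

/-- the kinds of an admissible element -/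
lemma left_or_right {L : ℕ} {A B : Gm} {I : Finset ℕ} {p : (ℕ × Bool) × ℕ} {s : ℕ × Bool}
    {q : ℕ ⊕ ℕ} (h : Adm L A B I p s q) :
    p.1.1 ≠ s.1 ∧ Inv p.1.1 A ∧ Inv s.1 A ∧ Inv p.1.1 B ∧ Inv s.1 B := by
  have h2 := h.h2
  rw [Finset.mem_insert, not_or] at h2
  exact ⟨fun e => h2.1 e.symm, Inv_of_Sub h.h1 h.hA, Inv_of_Sub h2.2 h.hA,
    Inv_of_Sub h.h1 h.hB, Inv_of_Sub h2.2 h.hB⟩

lemma Inv_px {L : ℕ} {A : Gm} {p : (ℕ × Bool) × ℕ} {j : ℕ} (h : j ≠ p.1.1) (hA : Inv j A) :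
    Inv j (px L A p) := by
  rw [px, a_eq]
  exact (H656R2.FG.inv_ga col L h _).mul hA.inv

lemma Inv_py {L : ℕ} {B : Gm} {p : (ℕ × Bool) × ℕ} {j : ℕ} (h : j ≠ p.1.1) (hB : Inv j B) :
    Inv j (py L B p) := by
  rw [py, b_eq]
  exact hB.inv.mul (H656R2.FG.inv_gb col L h _)

/-- no invisible outcome for the second kind -/
lemma no_inv_inr {L : ℕ} {A B : Gm} {I : Finset ℕ} {p : (ℕ × Bool) × ℕ} {s : ℕ × Bool}
    {r : ℕ} (h : Adm L A B I p s (Sum.inr r)) {t : (ℕ × Bool) × ℕ} (hl : t.2 < L)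
    (hX : Inv t.1.1 (px L (nA L A p s (Sum.inr r)) t))
    (hY : Inv t.1.1 (py L (nB L A B p s (Sum.inr r)) t)) : False := by
  obtain ⟨h1, h2, h3, h4, h5⟩ := left_or_right h
  have hr : r < L := h.hq
  have hne : r ≠ p.2 := h.hr r rfl
  by_cases hin : inA p.1.2 p.2 r
  · rw [nA_left L A p s r hin, px, a_eq] at hX
    rw [nB_left L A B p s r hin, py, b_eq] at hY
    exact H656R2.FG.left_no_inv h.hl hr hl hne h1 h2 h3 h4 h5 hX hY
  · rw [nA_right L A p s r hin, px, a_eq] at hX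
    rw [nB_right L A B p s r hin, py, b_eq] at hY
    refine H656R2.FG.left_no_inv (c := col) (A := B⁻¹) (B := A⁻¹) (s := ng p.1) (s2 := ng s)
      (s3 := ng t.1) (l3 := t.2) h.hl hr hl hne h1 h4.inv h5.inv h2.inv h3.inv ?_ ?_
    · have e : ga col L (ng t.1) t.2 * (LA col L B⁻¹ (ng p.1) p.2 r)⁻¹ =
        ((LA col L B⁻¹ (ng p.1) p.2 r)⁻¹⁻¹ * gb col L t.1 t.2)⁻¹ := by
        rw [H656R2.FG.ga_ng]; group
      rw [e]
      exact hY.inv
    · have e : (LB col L A⁻¹ (ng p.1) (ng s) p.2 r)⁻¹ * gb col L (ng t.1) t.2 =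
        (ga col L t.1 t.2 * (LB col L A⁻¹ (ng p.1) (ng s) p.2 r)⁻¹⁻¹)⁻¹ := by
        rw [H656R2.FG.gb_ng]; group
      rw [e]
      exact hX.inv

lemma K1_inl_inr {L : ℕ} {A B A' B' : Gm} {I I' : Finset ℕ} {p p' : (ℕ × Bool) × ℕ}
    {s s' : ℕ × Bool} {m r : ℕ} (h : Adm L A B I p s (Sum.inl m))
    (h' : Adm L A' B' I' p' s' (Sum.inr r))
    (eA : nA L A p s (Sum.inl m) = nA L A' p' s' (Sum.inr r))
    (eB : nB L A B p s (Sum.inl m) = nB L A' B' p' s' (Sum.inr r)) : False := by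
  obtain ⟨h1, h2, h3, h4, h5⟩ := left_or_right h
  have hm : m < L := h.hq
  refine no_inv_inr h' (t := (s, m)) hm ?_ ?_
  · rw [← eA, nA_inl, px, a_eq]
    have : ga col L s m * ((px L A p)⁻¹ * ga col L s m)⁻¹ = px L A p := by group
    rw [this]
    exact Inv_px (fun e => h1 e.symm) h3
  · rw [← eB, nB_inl, py, b_eq]
    have : (gb col L s m * (py L B p)⁻¹)⁻¹ * gb col L s m = py L B p := by group
    rw [this]
    exact Inv_py (fun e => h1 e.symm) h5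

lemma K1_left_right {L : ℕ} {A B A' B' : Gm} {I I' : Finset ℕ} {p p' : (ℕ × Bool) × ℕ}
    {s s' : ℕ × Bool} {r r' : ℕ} (h : Adm L A B I p s (Sum.inr r))
    (h' : Adm L A' B' I' p' s' (Sum.inr r')) (hin : inA p.1.2 p.2 r)
    (hin' : ¬ inA p'.1.2 p'.2 r')
    (eA : nA L A p s (Sum.inr r) = nA L A' p' s' (Sum.inr r')) : False := by
  obtain ⟨h1, h2, h3, h4, h5⟩ := left_or_right h
  obtain ⟨h1', h2', h3', h4', h5'⟩ := left_or_right h'
  have hr : r < L := h.hq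
  have hne : r ≠ p.2 := h.hr r rfl
  have hr' : r' < L := h'.hq
  rw [nA_left L A p s r hin, nA_right L A' p' s' r' hin'] at eA
  have e2 : ((ga col L p.1 p.2)⁻¹ * ga col L p.1 r)⁻¹ * A⁻¹ =
      LB col L A'⁻¹ (ng p'.1) (ng s') p'.2 r' := by
    rw [← inv_inj, ← eA, LA]; group
  refine H656R2.FG.left_right_disj (c := col) (j := p.1.1) (s := ng p'.1) (s2 := ng s')
    h'.hl hr' h1' h2'.inv h3'.inv
    (fun i hi => (H656R2.FG.inv_LA_mid hi p.2 r).inv) ?_ h2.inv e2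
  rw [H656R2.FG.ex_inv, H656R2.FG.ex_LA_mid]
  omega

/-- injectivity of the new family -/
theorem K1 {L : ℕ} {A B A' B' : Gm} {I I' : Finset ℕ} {p p' : (ℕ × Bool) × ℕ} {s s' : ℕ × Bool}
    {q q' : ℕ ⊕ ℕ} (h : Adm L A B I p s q) (h' : Adm L A' B' I' p' s' q')
    (eA : nA L A p s q = nA L A' p' s' q') (eB : nB L A B p s q = nB L A' B' p' s' q') :
    A = A' ∧ B = B' ∧ p = p' ∧ s = s' ∧ q = q' := by
  obtain ⟨h1, h2, h3, h4, h5⟩ := left_or_right h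
  obtain ⟨h1', h2', h3', h4', h5'⟩ := left_or_right h'
  have hq := h.hq
  have hq' := h'.hq
  rcases q with m | r <;> rcases q' with m' | r'
  · rw [nA_inl, nA_inl] at eA
    rw [nB_inl, nB_inl] at eB
    obtain ⟨e1, e2, e3⟩ := H656R2.FG.lemU hq hq' (Inv_px (fun e => h1 e.symm) h3).inv
      (Inv_px (fun e => h1' e.symm) h3').inv eA
    obtain ⟨-, -, e4⟩ := H656R2.FG.lemUb hq hq' (Inv_py (fun e => h1 e.symm) h5).inv
      (Inv_py (fun e => h1' e.symm) h5').inv eB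
    obtain ⟨e5, e6, e7⟩ := K0 h.hA h'.hA h.h1 h'.h1 h.hl h'.hl (inv_inj.1 e3) (inv_inj.1 e4)
    refine ⟨e6, e7, e5, e1, ?_⟩
    have e2' : m = m' := e2
    rw [e2']
  · exact (K1_inl_inr h h' eA eB).elim
  · exact (K1_inl_inr h' h eA.symm eB.symm).elim
  · have hne : r ≠ p.2 := h.hr r rfl
    have hne' : r' ≠ p'.2 := h'.hr r' rfl
    by_cases hin : inA p.1.2 p.2 r <;> by_cases hin' : inA p'.1.2 p'.2 r'
    · rw [nA_left L A p s r hin, nA_left L A' p' s' r' hin'] at eA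
      rw [nB_left L A B p s r hin, nB_left L A' B' p' s' r' hin'] at eB
      obtain ⟨e1, e2, e3, e4, e5, e6⟩ := H656R2.FG.left_inj h.hl hq hne h1 h'.hl hq' hne' h1'
        h2 h4 h5 h2' h4' h5' eA eB
      exact ⟨e5, e6, Prod.ext e1 e3, e2, congrArg Sum.inr e4⟩
    · exact (K1_left_right h h' hin hin' eA).elim
    · exact (K1_left_right h' h hin' hin eA.symm).elim
    · rw [nA_right L A p s r hin, nA_right L A' p' s' r' hin'] at eA
      rw [nB_right L A B p s r hin, nB_right L A' B' p' s' r' hin'] at eB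
      obtain ⟨e1, e2, e3, e4, e5, e6⟩ := H656R2.FG.left_inj (c := col) (s := ng p.1)
        (s' := ng p'.1) (s2 := ng s) (s2' := ng s') h.hl hq hne h1 h'.hl hq' hne' h1'
        h4.inv h2.inv h3.inv h4'.inv h2'.inv h3'.inv (inv_inj.1 eB) (inv_inj.1 eA)
      exact ⟨inv_inj.1 e6, inv_inj.1 e5, Prod.ext (H656R2.FG.ng_inj e1) e3,
        H656R2.FG.ng_inj e2, congrArg Sum.inr e4⟩

/-- visibility -/
theorem K2 {L : ℕ} {A B : Gm} {I : Finset ℕ} {p : (ℕ × Bool) × ℕ} {s : ℕ × Bool}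
    {q : ℕ ⊕ ℕ} (h : Adm L A B I p s q) {t : (ℕ × Bool) × ℕ} (ht : t.1.1 ∈ insert s.1 (insert p.1.1 I))
    (hl : t.2 < L)
    (hX : px L (nA L A p s q) t ∈ Sub ((insert s.1 (insert p.1.1 I)).erase t.1.1))
    (hY : py L (nB L A B p s q) t ∈ Sub ((insert s.1 (insert p.1.1 I)).erase t.1.1)) :
    ∃ m, q = Sum.inl m ∧ t = (s, m) := by
  obtain ⟨h1, h2, h3, h4, h5⟩ := left_or_right h
  have hX' := Inv_of_Sub (Finset.notMem_erase t.1.1 _) hX
  have hY' := Inv_of_Sub (Finset.notMem_erase t.1.1 _) hY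
  rcases q with m | r
  · refine ⟨m, rfl, ?_⟩
    have e1 : (px L (nA L A p s (Sum.inl m)) t)⁻¹ * ga col L t.1 t.2 =
        (px L A p)⁻¹ * ga col L s m := by
      rw [nA_inl, px, a_eq]; group
    obtain ⟨e2, e3, -⟩ := H656R2.FG.lemU hl h.hq hX'.inv (Inv_px (fun e => h1 e.symm) h3).inv e1
    exact Prod.ext e2 e3
  · exact (no_inv_inr h hl hX' hY').elim

variable {D : Fin 4 → Gm → (Gm →₀ ℝ)} (hD : Fox D)

lemma px_mem {L : ℕ} {A : Gm} {I : Finset ℕ} {p : (ℕ × Bool) × ℕ} (hA : A ∈ Sub I) :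
    px L A p ∈ Sub (insert p.1.1 I) :=
  mul_mem (a_mem (Finset.mem_insert_self _ _) _)
    (inv_mem (Sub_mono (Finset.subset_insert _ _) hA))

lemma py_mem {L : ℕ} {B : Gm} {I : Finset ℕ} {p : (ℕ × Bool) × ℕ} (hB : B ∈ Sub I) :
    py L B p ∈ Sub (insert p.1.1 I) :=
  mul_mem (inv_mem (Sub_mono (Finset.subset_insert _ _) hB))
    (b_mem (Finset.mem_insert_self _ _) _)

include hD

/-- Fox derivatives, first kind -/
theorem K3a {L : ℕ} {A B : Gm} {I : Finset ℕ} {p : (ℕ × Bool) × ℕ} {s : ℕ × Bool}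
    {m : ℕ} (h : Adm L A B I p s (Sum.inl m)) :
    D (col m) (nv L A B p s) (nA L A p s (Sum.inl m)) = sg s.2 := by
  have hm : m < L := h.hq
  have hx := px_mem (L := L) (p := p) h.hA
  have hy := py_mem (L := L) (p := p) h.hB
  rw [nv, nA, hD.mul_apply, hD.mul_apply]
  have e1 : (px L A p)⁻¹⁻¹ * ((px L A p)⁻¹ * a L s m) = a L s m := by group
  have e2 : ((px L A p)⁻¹ * g L s)⁻¹ * ((px L A p)⁻¹ * a L s m) = (b L s m)⁻¹ := by
    unfold b; group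
  rw [e1, e2, hD.g_apply _ s hm, if_pos rfl,
    hD.supp_E (inv_mem hx) _ h.h2 (z := (px L A p)⁻¹ * a L s m) (by
      rw [E_mul, E_a, E_Sub h.h2 (inv_mem hx), zero_add]; exact alf_ne hm),
    hD.supp_E (inv_mem hy) _ h.h2 (z := (b L s m)⁻¹) (by
      rw [E_inv, E_b]; simpa using bet_ne hm)]
  ring

/-- Fox derivatives, second kind -/
theorem K3b {L : ℕ} {A B : Gm} {I : Finset ℕ} {p : (ℕ × Bool) × ℕ} {s : ℕ × Bool}
    {r : ℕ} (h : Adm L A B I p s (Sum.inr r)) :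
    D (col r) (nv L A B p s) (nA L A p s (Sum.inr r)) = -sg p.1.2 := by
  have hr : r < L := h.hq
  have hne : r ≠ p.2 := h.hr r rfl
  have hx := px_mem (L := L) (p := p) h.hA
  have hy := py_mem (L := L) (p := p) h.hB
  have hps : p.1.1 ∉ ({s.1} : Finset ℕ) := by
    have h2 := h.h2
    rw [Finset.mem_insert, not_or] at h2
    rw [Finset.mem_singleton]
    exact fun e => h2.1 e.symm
  have hg : g L s ∈ Sub {s.1} := g_mem (Finset.mem_singleton_self _)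
  have hsp : s.1 ∉ ({p.1.1} : Finset ℕ) := by
    have h2 := h.h2
    rw [Finset.mem_insert, not_or] at h2
    rw [Finset.mem_singleton]
    exact h2.1
  rw [nv, nA]
  by_cases hin : inA p.1.2 p.2 r
  · rw [if_pos hin, hD.mul_apply, hD.mul_apply]
    have e1 : (px L A p)⁻¹⁻¹ * ((px L A p)⁻¹ * a L p.1 r) = a L p.1 r := by group
    have e2 : ((px L A p)⁻¹ * g L s)⁻¹ * ((px L A p)⁻¹ * a L p.1 r) = (g L s)⁻¹ * a L p.1 r := by
      group
    rw [e1, e2, hD.supp_E hg _ hps (z := a L p.1 r) (by rw [E_a]; exact alf_ne hr),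
      hD.supp_E (inv_mem hy) _ h.h2 (z := (g L s)⁻¹ * a L p.1 r) (by
        rw [E_mul, E_inv, E_g, E_Sub hsp (a_mem (Finset.mem_singleton_self _) r), add_zero]
        simpa using gam_ne)]
    have e3 : (px L A p)⁻¹ = A * (a L p.1 p.2)⁻¹ := by rw [px]; group
    rw [e3, hD.mul_apply, hD.inv_apply]
    have e4 : a L p.1 p.2 * (A⁻¹ * (A * (a L p.1 p.2)⁻¹ * a L p.1 r)) = a L p.1 r := by group
    rw [e4, hD.a_apply _ p.1 hr, if_pos ⟨hin, rfl⟩,
      hD.supp_E h.hA _ h.h1 (z := A * (a L p.1 p.2)⁻¹ * a L p.1 r) (by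
        rw [E_mul, E_mul, E_inv, E_a, E_a, E_Sub h.h1 h.hA]
        intro h0
        have : alf L p.1.2 r = alf L p.1.2 p.2 := by linarith
        exact hne (alf_inj hr h.hl this).2)]
    ring
  · rw [if_neg hin, hD.mul_apply, hD.mul_apply]
    have e1 : (px L A p)⁻¹⁻¹ * ((px L A p)⁻¹ * g L s * (b L p.1 r)⁻¹) =
      g L s * (b L p.1 r)⁻¹ := by group
    have e2 : ((px L A p)⁻¹ * g L s)⁻¹ * ((px L A p)⁻¹ * g L s * (b L p.1 r)⁻¹) =
      (b L p.1 r)⁻¹ := by group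
    rw [e1, e2, hD.supp_E hg _ hps (z := g L s * (b L p.1 r)⁻¹) (by
        rw [E_mul, E_Sub hps hg, zero_add, E_inv, E_b]; simpa using bet_ne hr),
      hD.supp_E (inv_mem hx) _ h.h2 (z := (px L A p)⁻¹ * g L s * (b L p.1 r)⁻¹) (by
        rw [E_mul, E_mul, E_Sub h.h2 (inv_mem hx), E_g,
          E_Sub hsp (inv_mem (b_mem (Finset.mem_singleton_self _) r)), zero_add, add_zero]
        exact gam_ne)]
    have e3 : (py L B p)⁻¹ = (b L p.1 p.2)⁻¹ * B := by rw [py]; group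
    rw [e3, hD.mul_apply, hD.b_apply _ p.1 hr, if_pos ⟨hin, rfl⟩,
      hD.supp_E h.hB _ h.h1 (z := (b L p.1 p.2)⁻¹⁻¹ * (b L p.1 r)⁻¹) (by
        rw [E_mul, E_inv, E_inv, E_inv, E_b, E_b]
        intro h0
        have : bet L p.1.2 r = bet L p.1.2 p.2 := by linarith
        exact hne (bet_inj hr h.hl this).2)]
    ring

end Pool.Agent.H296R3.FF
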