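import Pool.Agent.H296R3.FF.B3

/-!
# Free group factors, step 4: final assembly
-/

set_option autoImplicit false

open Finset

namespace Pool.Agent.H296R3.FF

/-- the statement of `exists_next` -/
def NextStmt : Prop := ∀ {J L N : ℕ} (_ : 0 < J) (_ : ∃ p, 0 < p ∧ L = 4 * p) (F : Fam J L N),
  ∃ F' : Fam J L (N + 2), F'.q ≤ 3 / 4 * F.q ∧ F'.Mn = (-(((J : ℝ) - N - 1) / J)) • F.Y ∧
    ∀ D, Fox D → bmap D F'.eta = 0

lemma step4_ind (exists_next : NextStmt) (n : ℕ) : ∃ Cn : ℝ, 0 ≤ Cn ∧ ∀ L : ℕ,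
    (∃ p, 0 < p ∧ L = 4 * p) →
    ∃ K : ℝ, 0 ≤ K ∧ ∀ J : ℕ, 0 < J → ∃ (F : Fam J L (2 * n + 1)) (η : Bs →₀ ℝ)
      (Err : (Gm × Gm) →₀ ℝ),
      T J L η = Finsupp.single (1, 1) 1 + F.Y + Err ∧ nsq Err ≤ K / J ∧ nsq η ≤ Cn / L ∧
      F.q ≤ (3 / 4) ^ n / L ∧ ∀ D, Fox D → bmap D η = PP J L := by
  induction n with
  | zero =>
    refine ⟨1, zero_le_one, fun L hL => ⟨2 * L, by positivity, fun J hJ => ?_⟩⟩
    obtain ⟨p, hp, hLp⟩ := hL
    have hL0 : 0 < L := by omega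
    have hLR : (0 : ℝ) < L := by exact_mod_cast hL0
    have hJR : (0 : ℝ) < J := by exact_mod_cast hJ
    refine ⟨F0 J L, (F0 J L).eta, (F0 J L).R, ?_, ?_, ?_, ?_, ?_⟩
    · rw [Fam.T_eta, F0_Mn hJ hL0]
      abel
    · refine ((F0 J L).nsq_R hJ).trans ?_
      rw [F0_q hJ hL0]
      apply le_of_eq
      push_cast
      field_simp
      try ring
    · refine ((F0 J L).nsq_eta).trans ?_
      rw [F0_q hJ hL0]
    · rw [F0_q hJ hL0]
      simp
    · intro D hD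
      exact F0_b hD hL0
  | succ n ih =>
    obtain ⟨C, hC, ih⟩ := ih
    refine ⟨2 * C + 2, by positivity, fun L hL => ?_⟩
    obtain ⟨K, hK, ih⟩ := ih L hL
    have hL0 : 0 < L := by
      obtain ⟨p, hp, hLp⟩ := hL
      omega
    have hLR : (0 : ℝ) < L := by exact_mod_cast hL0
    refine ⟨2 * K + 4 * ((2 * (2 * n + 3) * L) ^ 2) + 4 * (2 * n + 2) ^ 2, by positivity,
      fun J hJ => ?_⟩
    have hJR : (0 : ℝ) < J := by exact_mod_cast hJ
    have hJ1 : (1 : ℝ) ≤ J := by exact_mod_cast hJ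
    obtain ⟨F, η, Err, h1, h2, h3, h4, h5⟩ := ih J hJ
    obtain ⟨F', g1, g2, g3⟩ := exists_next hJ hL F
    have hL4 : ∃ p, L = 4 * p := by
      obtain ⟨p, hp, hLp⟩ := hL
      exact ⟨p, hLp⟩
    have hq1 : F.q ≤ 1 / L := by
      refine h4.trans ?_
      gcongr
      exact pow_le_one₀ (by norm_num) (by norm_num)
    have hq' : F'.q ≤ (3 / 4) ^ (n + 1) / L := by
      refine g1.trans ?_
      calc 3 / 4 * F.q ≤ 3 / 4 * ((3 / 4) ^ n / L) := by gcongr
        _ = _ := by ring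
    have hq1' : F'.q ≤ 1 / L := by
      refine hq'.trans ?_
      gcongr
      exact pow_le_one₀ (by norm_num) (by norm_num)
    refine ⟨F', η + F'.eta, Err + (F'.R + (((2 * n + 1 : ℕ) + 1 : ℝ) / J) • F.Y), ?_, ?_, ?_, ?_, ?_⟩
    · rw [map_add, h1, Fam.T_eta, g2]
      have e1 : (-(((J : ℝ) - (2 * n + 1 : ℕ) - 1) / J)) • F.Y =
          (((2 * n + 1 : ℕ) + 1 : ℝ) / J) • F.Y - F.Y := by
        have : F.Y = (1 : ℝ) • F.Y := (one_smul _ _).symm
        nth_rewrite 3 [this]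
        rw [← sub_smul]
        congr 1
        field_simp
        ring
      rw [e1]
      abel
    · have e2 : nsq F'.R ≤ (2 * (2 * n + 3) * L) ^ 2 / J := by
        refine (F'.nsq_R hJ).trans ?_
        have h6 : (2 * ((2 * n + 1 + 2 : ℕ) : ℝ) * L) ^ 2 / (2 * J) * F'.q ≤
            (2 * ((2 * n + 1 + 2 : ℕ) : ℝ) * L) ^ 2 / (2 * J) * (1 / L) := by
          gcongr
        refine h6.trans ?_
        push_cast
        have h7 : (1 : ℝ) ≤ L := by exact_mod_cast hL0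
        have h8 : (1 : ℝ) / L ≤ 1 := by
          rw [div_le_one hLR]; exact h7
        calc (2 * (2 * (n : ℝ) + 1 + 2) * (L : ℝ)) ^ 2 / (2 * (J : ℝ)) * (1 / (L : ℝ)) ≤
            (2 * (2 * (n : ℝ) + 1 + 2) * (L : ℝ)) ^ 2 / (2 * (J : ℝ)) * 1 := by gcongr
          _ ≤ (2 * (2 * (n : ℝ) + 3) * (L : ℝ)) ^ 2 / (J : ℝ) := by
            rw [mul_one]
            have : (2 * (2 * (n : ℝ) + 1 + 2) * (L : ℝ)) = (2 * (2 * (n : ℝ) + 3) * (L : ℝ)) := by
              ring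
            rw [this]
            apply div_le_div_of_nonneg_left (by positivity) hJR
            linarith
      have e3 : nsq ((((2 * n + 1 : ℕ) + 1 : ℝ) / J) • F.Y) ≤ (2 * n + 2) ^ 2 / J := by
        rw [nsq_smul]
        have h6 : nsq F.Y ≤ 1 := by
          refine (F.nsq_Y hL4 hJ).trans ?_
          calc (L : ℝ) / 4 * F.q ≤ L / 4 * (1 / L) := by gcongr
            _ = 1 / 4 := by field_simp
            _ ≤ 1 := by norm_num
        calc ((((2 * n + 1 : ℕ) : ℝ) + 1) / (J : ℝ)) ^ 2 * nsq F.Y ≤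
            ((((2 * n + 1 : ℕ) : ℝ) + 1) / (J : ℝ)) ^ 2 * 1 := by gcongr
          _ = (2 * (n : ℝ) + 2) ^ 2 / ((J : ℝ) * (J : ℝ)) := by
            push_cast
            rw [div_pow, mul_one, sq (J : ℝ)]
            congr 1
            ring
          _ ≤ (2 * (n : ℝ) + 2) ^ 2 / (J : ℝ) := by
            apply div_le_div_of_nonneg_left (by positivity) hJR
            nlinarith
      refine (nsq_add_le _ _).trans ?_
      have e4 := nsq_add_le F'.R ((((2 * n + 1 : ℕ) + 1 : ℝ) / J) • F.Y)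
      calc 2 * nsq Err + 2 * nsq (F'.R + (((2 * n + 1 : ℕ) + 1 : ℝ) / J) • F.Y)
          ≤ 2 * (K / J) + 2 * (2 * ((2 * (2 * n + 3) * L) ^ 2 / J) +
            2 * ((2 * n + 2) ^ 2 / J)) := by linarith
        _ = _ := by ring
    · refine (nsq_add_le _ _).trans ?_
      have := F'.nsq_eta
      calc 2 * nsq η + 2 * nsq F'.eta ≤ 2 * (C / L) + 2 * (1 / L) := by linarith
        _ = _ := by ring
    · exact hq'
    · intro D hD
      rw [map_add, h5 D hD, g3 D hD, add_zero]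

/-- **Step 4** (relative to `exists_next`). -/
theorem step4_of (exists_next : NextStmt) (ε : ℝ) (hε : 0 < ε) : ∃ J L : ℕ, 0 < J ∧ 0 < L ∧
    ∃ η : Bs →₀ ℝ, nsq η ≤ ε ∧ nsq (T J L η - Finsupp.single (1, 1) 1) ≤ ε ∧
      ∀ D, Fox D → bmap D η = PP J L := by
  obtain ⟨n, hn⟩ := exists_pow_lt_of_lt_one (show (0 : ℝ) < ε by exact hε)
    (show (3 / 4 : ℝ) < 1 by norm_num)
  obtain ⟨C, hC, h⟩ := step4_ind exists_next n
  obtain ⟨p, hp⟩ := exists_nat_gt (C / ε)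
  have hp0 : 0 < p := by
    have : (0 : ℝ) < p := lt_of_le_of_lt (by positivity) hp
    exact_mod_cast this
  obtain ⟨K, hK, h⟩ := h (4 * p) ⟨p, hp0, rfl⟩
  obtain ⟨J, hJ⟩ := exists_nat_gt (4 * K / ε)
  have hJ0 : 0 < J := by
    have : (0 : ℝ) < J := lt_of_le_of_lt (by positivity) hJ
    exact_mod_cast this
  obtain ⟨F, η, Err, h1, h2, h3, h4, h5⟩ := h J hJ0
  have hpR : (0 : ℝ) < p := by exact_mod_cast hp0
  have hJR : (0 : ℝ) < J := by exact_mod_cast hJ0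
  refine ⟨J, 4 * p, hJ0, by omega, η, ?_, ?_, h5⟩
  · refine h3.trans ?_
    push_cast
    rw [div_le_iff₀ (by positivity)]
    rw [div_lt_iff₀ hε] at hp
    nlinarith
  · have e1 : T J (4 * p) η - Finsupp.single (1, 1) 1 = F.Y + Err := by
      rw [h1]; abel
    rw [e1]
    refine (nsq_add_le _ _).trans ?_
    have e2 : nsq F.Y ≤ ε / 4 := by
      refine (F.nsq_Y ⟨p, rfl⟩ hJ0).trans ?_
      calc ((4 * p : ℕ) : ℝ) / 4 * F.q ≤ ((4 * p : ℕ) : ℝ) / 4 * ((3 / 4) ^ n / (4 * p : ℕ)) := by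
            gcongr
        _ = (3 / 4) ^ n / 4 := by push_cast; field_simp
        _ ≤ ε / 4 := by linarith
    have e3 : nsq Err ≤ ε / 4 := by
      refine h2.trans ?_
      rw [div_le_iff₀ hJR]
      rw [div_lt_iff₀ hε] at hJ
      linarith
    linarith

end Pool.Agent.H296R3.FF
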