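import Mathlib

/-!
# Free group factors, step 4: words, exponents, Heisenberg quotients
-/

namespace H656R2.FG

/-- The Heisenberg group over the integers. -/
@[ext] structure H3 where
  x : ℤ
  y : ℤ
  z : ℤ

namespace H3

instance : Mul H3 := ⟨fun a b => ⟨a.x + b.x, a.y + b.y, a.z + b.z + a.x * b.y⟩⟩
instance : One H3 := ⟨⟨0, 0, 0⟩⟩
instance : Inv H3 := ⟨fun a => ⟨-a.x, -a.y, -a.z + a.x * a.y⟩⟩

@[simp] lemma mul_x (a b : H3) : (a * b).x = a.x + b.x := rfl
@[simp] lemma mul_y (a b : H3) : (a * b).y = a.y + b.y := rfl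
@[simp] lemma mul_z (a b : H3) : (a * b).z = a.z + b.z + a.x * b.y := rfl
@[simp] lemma one_x : (1 : H3).x = 0 := rfl
@[simp] lemma one_y : (1 : H3).y = 0 := rfl
@[simp] lemma one_z : (1 : H3).z = 0 := rfl
@[simp] lemma inv_x (a : H3) : (a⁻¹).x = -a.x := rfl
@[simp] lemma inv_y (a : H3) : (a⁻¹).y = -a.y := rfl
@[simp] lemma inv_z (a : H3) : (a⁻¹).z = -a.z + a.x * a.y := rfl

instance : Group H3 where
  mul_assoc a b c := by
    ext <;> simp <;> ring
  one_mul a := by ext <;> simp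
  mul_one a := by ext <;> simp
  inv_mul_cancel a := by
    ext <;> simp

/-- The subgroup of the powers of `X`. -/
def SX : Subgroup H3 where
  carrier := {h | h.y = 0 ∧ h.z = 0}
  mul_mem' := by
    rintro a b ⟨h1, h2⟩ ⟨h3, h4⟩
    exact ⟨by simp [h1, h3], by simp [h2, h4, h3]⟩
  one_mem' := ⟨rfl, rfl⟩
  inv_mem' := by
    rintro a ⟨h1, h2⟩
    exact ⟨by simp [h1], by simp [h2, h1]⟩

/-- The subgroup of the powers of `Y`. -/
def SY : Subgroup H3 where
  carrier := {h | h.x = 0 ∧ h.z = 0}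
  mul_mem' := by
    rintro a b ⟨h1, h2⟩ ⟨h3, h4⟩
    exact ⟨by simp [h1, h3], by simp [h2, h4, h1]⟩
  one_mem' := ⟨rfl, rfl⟩
  inv_mem' := by
    rintro a ⟨h1, h2⟩
    exact ⟨by simp [h1], by simp [h2, h1]⟩

end H3

open FreeGroup

variable {ι κ : Type} [DecidableEq ι]

lemma range_le' {α G : Type} [Group G] {S : Subgroup G} {f : α → G}
    (h : Set.range f ⊆ S) : (lift f).range ≤ S := by
  rw [FreeGroup.range_lift_eq_closure]
  exact (Subgroup.closure_le _).2 h

/-- kill `w_j`. -/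
def pj (κ : Type) (j : ι) : FreeGroup (ι ⊕ κ) →* FreeGroup (ι ⊕ κ) :=
  lift (Sum.elim (fun i => if i = j then 1 else of (Sum.inl i)) (fun k => of (Sum.inr k)))

/-- the exponent of `w_j`. -/
def Ej (κ : Type) (j : ι) : FreeGroup (ι ⊕ κ) →* Multiplicative ℤ :=
  lift (Sum.elim (fun i => if i = j then Multiplicative.ofAdd 1 else 1) (fun _ => 1))

/-- the exponent of `w_j`, as an integer. -/
def ex (j : ι) (g : FreeGroup (ι ⊕ κ)) : ℤ := Multiplicative.toAdd (Ej κ j g)

/-- the Heisenberg quotient for `j, j'`. -/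
def Hs (κ : Type) (j j' : ι) : FreeGroup (ι ⊕ κ) →* H3 :=
  lift (Sum.elim (fun i => if i = j then ⟨1, 0, 0⟩ else if i = j' then ⟨0, 1, 0⟩ else 1)
    (fun _ => 1))

/-- `j` is invisible in `g`. -/
def Inv (j : ι) (g : FreeGroup (ι ⊕ κ)) : Prop := pj κ j g = g

lemma inv_one (j : ι) : Inv j (1 : FreeGroup (ι ⊕ κ)) := _root_.map_one _

lemma Inv.mul {j : ι} {g h : FreeGroup (ι ⊕ κ)} (h1 : Inv j g) (h2 : Inv j h) :
    Inv j (g * h) := by
  unfold Inv at *
  rw [_root_.map_mul, h1, h2]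

lemma Inv.inv {j : ι} {g : FreeGroup (ι ⊕ κ)} (h1 : Inv j g) : Inv j g⁻¹ := by
  unfold Inv at *
  rw [_root_.map_inv, h1]

lemma inv_w {i j : ι} (h : i ≠ j) : Inv j (of (Sum.inl i) : FreeGroup (ι ⊕ κ)) := by
  simp [Inv, pj, h]

lemma inv_u (j : ι) (k : κ) : Inv j (of (Sum.inr k) : FreeGroup (ι ⊕ κ)) := by
  simp [Inv, pj]

lemma ex_mul (j : ι) (g h : FreeGroup (ι ⊕ κ)) : ex j (g * h) = ex j g + ex j h := by
  simp [ex]

lemma ex_inv (j : ι) (g : FreeGroup (ι ⊕ κ)) : ex j g⁻¹ = - ex j g := by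
  simp [ex]

lemma ex_one (j : ι) : ex j (1 : FreeGroup (ι ⊕ κ)) = 0 := by
  simp [ex]

lemma ex_w (j : ι) : ex j (of (Sum.inl j) : FreeGroup (ι ⊕ κ)) = 1 := by
  simp [ex, Ej]

lemma ex_w_ne {i j : ι} (h : i ≠ j) : ex j (of (Sum.inl i) : FreeGroup (ι ⊕ κ)) = 0 := by
  simp [ex, Ej, h]

lemma ex_u (j : ι) (k : κ) : ex j (of (Sum.inr k) : FreeGroup (ι ⊕ κ)) = 0 := by
  simp [ex, Ej]

lemma Ej_comp_pj (j : ι) : (Ej κ j).comp (pj κ j) = 1 := by
  apply FreeGroup.ext_hom
  rintro (i | k)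
  · by_cases h : i = j <;> simp [Ej, pj, h]
  · simp [Ej, pj]

lemma Inv.ex {j : ι} {g : FreeGroup (ι ⊕ κ)} (h : Inv j g) : ex j g = 0 := by
  unfold FG.ex
  rw [← h]
  have := DFunLike.congr_fun (Ej_comp_pj (κ := κ) j) g
  simp only [MonoidHom.comp_apply, MonoidHom.one_apply] at this
  rw [this]
  rfl

lemma Hs_x {j j' : ι} (g : FreeGroup (ι ⊕ κ)) : (Hs κ j j' g).x = ex j g := by
  have key : ∀ g : FreeGroup (ι ⊕ κ), (Hs κ j j' g).x = ex j g := by
    intro g
    induction g using FreeGroup.induction_on with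
    | C1 => simp [ex]
    | of s =>
      rcases s with i | k
      · by_cases h : i = j
        · simp [Hs, ex, Ej, h]
        · by_cases h' : i = j'
          · subst h'
            simp [Hs, ex, Ej, h]
          · simp [Hs, ex, Ej, h, h']
      · simp [Hs, ex, Ej]
    | inv_of s ih => rw [_root_.map_inv, H3.inv_x, ih, ex_inv]
    | mul a b iha ihb => rw [_root_.map_mul, H3.mul_x, iha, ihb, ex_mul]
  exact key g

lemma Hs_y {j j' : ι} (hj : j ≠ j') (g : FreeGroup (ι ⊕ κ)) : (Hs κ j j' g).y = ex j' g := by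
  have key : ∀ g : FreeGroup (ι ⊕ κ), (Hs κ j j' g).y = ex j' g := by
    intro g
    induction g using FreeGroup.induction_on with
    | C1 => simp [ex]
    | of s =>
      rcases s with i | k
      · by_cases h : i = j
        · subst h
          simp [Hs, ex, Ej, hj]
        · by_cases h' : i = j'
          · subst h'
            simp [Hs, ex, Ej, h]
          · simp [Hs, ex, Ej, h, h']
      · simp [Hs, ex, Ej]
    | inv_of s ih => rw [_root_.map_inv, H3.inv_y, ih, ex_inv]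
    | mul a b iha ihb => rw [_root_.map_mul, H3.mul_y, iha, ihb, ex_mul]
  exact key g

lemma Hs_inv_left {j j' : ι} {g : FreeGroup (ι ⊕ κ)} (h : Inv j g) :
    (Hs κ j j' g).z = 0 := by
  have key : (Hs κ j j').comp (pj κ j) g ∈ H3.SY := by
    have : ((Hs κ j j').comp (pj κ j)) =
        lift (fun s => (Hs κ j j') (pj κ j (of s))) := by
      apply FreeGroup.ext_hom
      intro s
      simp
    rw [this]
    have h2 := range_le' (S := H3.SY)
      (f := fun s => (Hs κ j j') (pj κ j (of s))) (by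
        rintro _ ⟨s, rfl⟩
        rcases s with i | k
        · by_cases hi : i = j
          · simp [pj, hi, H3.SY]
          · by_cases hi' : i = j'
            · simp [pj, Hs, hi, hi', H3.SY]
              split_ifs <;> simp_all
            · simp [pj, Hs, hi, hi', H3.SY]
        · simp [pj, Hs, H3.SY])
    exact h2 ⟨g, rfl⟩
  rw [MonoidHom.comp_apply, h] at key
  exact key.2

lemma Hs_inv_right {j j' : ι} {g : FreeGroup (ι ⊕ κ)} (hj : j ≠ j') (h : Inv j' g) :
    (Hs κ j j' g).z = 0 := by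
  have key : (Hs κ j j').comp (pj κ j') g ∈ H3.SX := by
    have : ((Hs κ j j').comp (pj κ j')) =
        lift (fun s => (Hs κ j j') (pj κ j' (of s))) := by
      apply FreeGroup.ext_hom
      intro s
      simp
    rw [this]
    have h2 := range_le' (S := H3.SX)
      (f := fun s => (Hs κ j j') (pj κ j' (of s))) (by
        rintro _ ⟨s, rfl⟩
        rcases s with i | k
        · by_cases hi' : i = j'
          · simp [pj, hi', H3.SX]
          · by_cases hi : i = j
            · simp [pj, Hs, hi, hj, H3.SX]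
            · simp [pj, Hs, hi, hi', H3.SX]
        · simp [pj, Hs, H3.SX])
    exact h2 ⟨g, rfl⟩
  rw [MonoidHom.comp_apply, h] at key
  exact key.2

/-- **Lemma P.** -/
lemma lemP {j j' : ι} {s s' X X' : FreeGroup (ι ⊕ κ)}
    (hs : ∀ i, i ≠ j → Inv i s) (hs' : ∀ i, i ≠ j' → Inv i s')
    (he : ex j s ≠ 0) (he' : ex j' s' ≠ 0) (hX : Inv j X) (hX' : Inv j' X')
    (h : X * s = X' * s') : j = j' ∧ ex j s = ex j' s' := by
  by_cases hj : j = j'
  · subst hj
    refine ⟨rfl, ?_⟩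
    have := congrArg (ex j) h
    rw [ex_mul, ex_mul, hX.ex, hX'.ex] at this
    linarith
  · exfalso
    have h1 := congrArg (Hs κ j j') h
    rw [_root_.map_mul, _root_.map_mul] at h1
    have hz := congrArg H3.z h1
    have hx := congrArg H3.x h1
    have hy := congrArg H3.y h1
    simp only [H3.mul_z, H3.mul_x, H3.mul_y, Hs_x, Hs_y hj] at hz hx hy
    rw [Hs_inv_left hX, Hs_inv_right hj (hs j' (Ne.symm hj)), Hs_inv_right hj hX',
      Hs_inv_left (hs' j hj), hX.ex] at hz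
    rw [hX.ex, (hs' j hj).ex] at hx
    simp at hz hx
    rcases hz with hz | hz
    · rw [hz] at hx; exact he hx
    · exact he' hz

/-- left version -/
lemma lemP' {j j' : ι} {s s' X X' : FreeGroup (ι ⊕ κ)}
    (hs : ∀ i, i ≠ j → Inv i s) (hs' : ∀ i, i ≠ j' → Inv i s')
    (he : ex j s ≠ 0) (he' : ex j' s' ≠ 0) (hX : Inv j X) (hX' : Inv j' X')
    (h : s * X = s' * X') : j = j' ∧ ex j s = ex j' s' := by
  have h2 : X⁻¹ * s⁻¹ = X'⁻¹ * s'⁻¹ := by
    rw [← mul_inv_rev, ← mul_inv_rev, h]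
  have := lemP (fun i hi => (hs i hi).inv) (fun i hi => (hs' i hi).inv)
    (by rw [ex_inv]; simpa using he) (by rw [ex_inv]; simpa using he') hX.inv hX'.inv h2
  rw [ex_inv, ex_inv] at this
  exact ⟨this.1, by linarith [this.2]⟩

end H656R2.FG
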